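import Pool.Agent.Helper47.KN.Goals

/-!
# Project KN, packet AU: a homeomorphism which conjugates the kneading group onto a dense subgroup
respects the first level
-/

set_option autoImplicit false

namespace Pool.Agent.Helper45.KN

open Equiv Pool.Agent.Helper62.GR Pool.Agent.Helper47.KN

theorem bool_ne {a b : Bool} (h : a ≠ b) : a = !b := by
  cases a <;> cases b <;> simp_all

theorem agr_one {x y : X} : Agr 1 x y ↔ x 0 = y 0 :=
  ⟨fun h => h 0 (by omega), fun h i hi => by
    have : i = 0 := by omega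
    subst this; exact h⟩

theorem ag_zero {n : ℕ} (v : ZMod (n + 2) → Bool) (i : ZMod (n + 2)) (x : X) :
    (ag v i x) 0 = xor (x 0) (decide (i = 0)) := by
  conv_lhs => rw [← cn_tl x, ag_cn]
  rw [cn_zero]

theorem ev_zero {n : ℕ} (v : ZMod (n + 2) → Bool) (w : FreeGroup (ZMod (n + 2))) (x : X) :
    (ev v w x) 0 = xor (x 0) (fl w) := by
  conv_lhs => rw [← cn_tl x, ev_cn]
  rw [cn_zero]

/-- the first letter -/
theorem first {n : ℕ} (v : ZMod (n + 2) → Bool) (hLR : Wbr (KG v)) (f : Perm X)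
    (hf : SNg (KG v) f) : ∃ c : Bool, ∀ x, (f⁻¹ x) 0 = xor (x 0) c := by
  obtain ⟨hc, hci, hn, hd⟩ := hf
  set F : X → Bool := fun x => (f⁻¹ x) 0 with hF
  have hnear : ∀ y, ∃ k, ∀ z, Agr k y z → F y = F z := by
    intro y
    obtain ⟨k, hk⟩ := hci y 1
    exact ⟨k, fun z hz => agr_one.mp (hk z hz)⟩
  have A1 : ∀ g ∈ KG v, ∀ x y, F (g x) = F (g y) ↔ F x = F y := by
    intro g hg x y
    obtain ⟨k1, hk1⟩ := hnear (g x)
    obtain ⟨k2, hk2⟩ := hnear (g y)
    obtain ⟨h, hh, hhd⟩ := hd (max k1 k2) g hg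
    have e : ∀ z, F ((f * h * f⁻¹) z) = (h (f⁻¹ z)) 0 := by
      intro z
      simp [hF, Perm.mul_apply]
    have e1 : F (g x) = (h (f⁻¹ x)) 0 := by
      rw [← e]; exact hk1 _ (((hhd x).symm).mono (le_max_left _ _))
    have e2 : F (g y) = (h (f⁻¹ y)) 0 := by
      rw [← e]; exact hk2 _ (((hhd y).symm).mono (le_max_right _ _))
    rw [e1, e2, ← agr_one, hLR.agr h hh, agr_one]
  let x0 : X := fun _ => false
  let χ : Perm X → Bool := fun g => xor (F (g x0)) (F x0)
  have hχ : ∀ g ∈ KG v, ∀ x, xor (F (g x)) (F x) = χ g := by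
    intro g hg x
    have h1 := A1 g hg x x0
    show xor (F (g x)) (F x) = xor (F (g x0)) (F x0)
    by_cases h2 : F x = F x0
    · rw [h1.mpr h2, h2]
    · have h3 : F (g x) ≠ F (g x0) := fun h => h2 (h1.mp h)
      rw [bool_ne h2, bool_ne h3]
      cases F (g x0) <;> cases F x0 <;> rfl
  have hχ1 : χ 1 = false := by
    show xor (F ((1 : Perm X) x0)) (F x0) = false
    rw [Perm.one_apply, Bool.xor_self]
  have hχm : ∀ g ∈ KG v, ∀ h ∈ KG v, χ (g * h) = xor (χ g) (χ h) := by
    intro g hg h hh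
    rw [← hχ g hg (h x0)]
    show xor (F (g (h x0))) (F x0) = xor (xor (F (g (h x0))) (F (h x0))) (xor (F (h x0)) (F x0))
    cases F (g (h x0)) <;> cases F (h x0) <;> cases F x0 <;> rfl
  have hχi : ∀ g ∈ KG v, χ g⁻¹ = χ g := by
    intro g hg
    have h1 := hχm g hg g⁻¹ ((KG v).inv_mem hg)
    rw [mul_inv_cancel, hχ1] at h1
    revert h1
    cases χ g <;> cases χ g⁻¹ <;> simp
  -- no transitive set of elements with value false
  have T : (∀ m x y, ∃ g ∈ KG v, χ g = false ∧ Agr m (g x) y) → False := by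
    intro hT
    have h6 : ∀ x y, F x = F y := by
      intro x y
      obtain ⟨k, hk⟩ := hnear y
      obtain ⟨g, hg, hg1, hgk⟩ := hT k x y
      have h1 := hχ g hg x
      rw [hg1] at h1
      have h2 : F (g x) = F x := by
        revert h1
        cases F (g x) <;> cases F x <;> simp
      rw [hk _ hgk.symm, h2]
    have h7 := h6 (f fun _ => true) (f fun _ => false)
    simp [hF] at h7
  have A3 : ∀ i : ZMod (n + 2), i ≠ 0 → χ (ag v i) = false := by
    intro i hi
    by_contra hcon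
    have hi1 : χ (ag v i) = true := by simpa using hcon
    obtain ⟨l, hl, hl1, hl2⟩ : ∃ l ∈ KG v, χ l = false ∧ ∀ x, (l x) 0 = !x 0 := by
      cases h0 : χ (ag v 0)
      · refine ⟨ag v 0, ag_mem v 0, h0, fun x => ?_⟩
        rw [ag_zero]
        simp
      · refine ⟨ag v 0 * ag v i, (KG v).mul_mem (ag_mem v 0) (ag_mem v i), ?_, fun x => ?_⟩
        · rw [hχm _ (ag_mem v 0) _ (ag_mem v i), h0, hi1]
          rfl
        · rw [Perm.mul_apply, ag_zero, ag_zero]
          simp [hi]
    have hb : ∀ g ∈ KG v, ∀ b : Bool, ∃ h ∈ KG v, χ h = false ∧ ∀ x, h (cn b x) = cn b (g x) := by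
      intro g hg b
      obtain ⟨h, hh, hh1⟩ := selfrep v hg b
      cases h0 : χ h
      · exact ⟨h, hh, h0, hh1⟩
      · obtain ⟨u, hu, hu1, hu2⟩ : ∃ u ∈ KG v, χ u = true ∧ ∀ x, u (cn b x) = cn b x := by
          by_cases hbv : b = v i
          · have hai : (ag v 0)⁻¹ ∈ KG v := (KG v).inv_mem (ag_mem v 0)
            refine ⟨ag v 0 * ag v i * (ag v 0)⁻¹,
              (KG v).mul_mem ((KG v).mul_mem (ag_mem v 0) (ag_mem v i)) hai, ?_, fun x => ?_⟩
            · rw [hχm _ ((KG v).mul_mem (ag_mem v 0) (ag_mem v i)) _ hai,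
                hχm _ (ag_mem v 0) _ (ag_mem v i), hχi _ (ag_mem v 0), hi1]
              cases χ (ag v 0) <;> rfl
            · set y := (ag v 0)⁻¹ (cn b x) with hy
              have hy0 : y 0 = !b := by
                have h1 : ag v 0 y = cn b x := by rw [hy]; simp
                have h2 := ag_zero v 0 y
                rw [h1, cn_zero] at h2
                rw [h2]
                simp
              have h3 : ag v i y = y := by
                rw [← cn_tl y, ag_cn, hy0, if_neg]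
                · simp [hi]
                · rw [← hbv]
                  cases b <;> simp
              rw [Perm.mul_apply, Perm.mul_apply, ← hy, h3, hy]
              simp
          · refine ⟨ag v i, ag_mem v i, hi1, fun x => ?_⟩
            rw [ag_cn, if_neg hbv]
            simp [hi]
        refine ⟨h * u, (KG v).mul_mem hh hu, ?_, fun x => ?_⟩
        · rw [hχm h hh u hu, h0, hu1]
          rfl
        · rw [Perm.mul_apply, hu2, hh1]
    refine T fun m x y => ?_
    have key : ∀ x : X, x 0 = y 0 → ∃ g ∈ KG v, χ g = false ∧ Agr m (g x) y := by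
      intro x hxy
      obtain ⟨g, hg, hgm⟩ := hLR.trans m (tl x) (tl y)
      obtain ⟨h, hh, hh0, hh1⟩ := hb g hg (x 0)
      refine ⟨h, hh, hh0, ?_⟩
      have h1 : Agr (m + 1) (h x) y := by
        rw [← cn_tl x, hh1, ← cn_tl y, Agr_cn]
        exact ⟨hxy, hgm⟩
      exact h1.mono (by omega)
    by_cases hxy : x 0 = y 0
    · exact key x hxy
    · obtain ⟨g, hg, hg0, hgm⟩ := key (l x) (by
        rw [hl2]
        revert hxy
        cases x 0 <;> cases y 0 <;> simp)
      refine ⟨g * l, (KG v).mul_mem hg hl, ?_, hgm⟩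
      rw [hχm g hg l hl, hg0, hl1]
      rfl
  have hinv : ∀ (P : Bool), χ (ag v 0) = P → ∀ w : FreeGroup (ZMod (n + 2)),
      χ (ev v w) = (fl w && P) := by
    intro P hP w
    induction w using FreeGroup.induction_on with
    | C1 => rw [map_one, hχ1, fl_one]; rfl
    | of i =>
      rw [ev_of, fl_of]
      by_cases h : i = 0
      · rw [h, hP]
        simp
      · rw [A3 i h]
        simp [h]
    | inv_of i h => rw [map_inv, hχi _ (ev_mem v _), h, fl_inv]
    | mul w w' hw hw' =>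
      rw [map_mul, hχm _ (ev_mem v w) _ (ev_mem v w'), hw, hw', fl_mul]
      cases fl w <;> cases fl w' <;> cases P <;> rfl
  have A2 : χ (ag v 0) = true := by
    by_contra hcon
    have h0 : χ (ag v 0) = false := by simpa using hcon
    refine T fun m x y => ?_
    obtain ⟨g, hg, hgm⟩ := hLR.trans m x y
    obtain ⟨w, rfl⟩ := exists_ev v hg
    refine ⟨_, hg, ?_, hgm⟩
    rw [hinv false h0 w, Bool.and_false]
  have A4 : ∀ g ∈ KG v, ∀ x, xor (F (g x)) (F x) = xor ((g x) 0) (x 0) := by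
    intro g hg x
    rw [hχ g hg x]
    obtain ⟨w, rfl⟩ := exists_ev v hg
    rw [hinv true A2 w, Bool.and_true, ev_zero]
    cases x 0 <;> cases fl w <;> rfl
  have A5 : ∀ x y : X, x 0 = y 0 → F x = F y := by
    intro x y hxy
    obtain ⟨k, hk⟩ := hnear y
    obtain ⟨g, hg, hgk⟩ := hLR.trans k (tl x) (tl y)
    obtain ⟨h, hh, hh1⟩ := selfrep v hg (x 0)
    have he : h x = cn (x 0) (g (tl x)) := by
      conv_lhs => rw [← cn_tl x]
      rw [hh1]
    have h1 := A4 h hh x
    rw [he, cn_zero, Bool.xor_self] at h1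
    have h2 : F (cn (x 0) (g (tl x))) = F x := by
      revert h1
      cases F (cn (x 0) (g (tl x))) <;> cases F x <;> simp
    have h3 : Agr (k + 1) y (cn (x 0) (g (tl x))) := by
      rw [← cn_tl y, Agr_cn]
      exact ⟨hxy.symm, hgk.symm⟩
    rw [hk _ (h3.mono (by omega)), h2]
  refine ⟨F x0, fun x => ?_⟩
  show F x = xor (x 0) (F x0)
  rcases Bool.eq_false_or_eq_true (x 0) with h0 | h0
  · have h1 : F (ag v 0 x) = F x0 := A5 _ _ (by rw [ag_zero, h0]; simp [x0])
    have h2 := hχ (ag v 0) (ag_mem v 0) x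
    rw [A2, h1] at h2
    rw [h0]
    revert h2
    cases F x <;> cases F x0 <;> simp
  · have h1 : F x = F x0 := A5 _ _ (by rw [h0])
    rw [h1, h0, Bool.false_xor]

/-- sections of elements of the group are in the group -/
theorem sec_mem {n : ℕ} (v : ZMod (n + 2) → Bool) {k0 k : Perm X} (hk : k0 ∈ KG v) (b b' : Bool)
    (h : ∀ x, k0 (cn b x) = cn b' (k x)) : k ∈ KG v := by
  obtain ⟨w, rfl⟩ := exists_ev v hk
  have h1 : k = ev v (sec v b w) := by
    ext1 x
    have h2 := h x
    rw [ev_cn] at h2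
    exact (cn_inj h2).2.symm
  rw [h1]
  exact ev_mem v _

theorem t (hLR : K_LR) : K_AU := by
  intro n v f hf
  obtain ⟨c, hF⟩ := first v (hLR n v) f hf
  obtain ⟨hc, hci, hn, hd⟩ := hf
  have hf0 : ∀ x, (f x) 0 = xor (x 0) c := by
    intro x
    have h1 := hF (f x)
    have h2 : f⁻¹ (f x) = x := f.symm_apply_apply x
    rw [h2] at h1
    rw [h1, Bool.xor_assoc, Bool.xor_self, Bool.xor_false]
  have e : ∀ b x, cn (xor b c) (tl (f (cn b x))) = f (cn b x) := by
    intro b x
    conv_rhs => rw [← cn_tl (f (cn b x)), hf0, cn_zero]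
  have e' : ∀ b x, cn b (tl (f⁻¹ (cn (xor b c) x))) = f⁻¹ (cn (xor b c) x) := by
    intro b x
    conv_rhs => rw [← cn_tl (f⁻¹ (cn (xor b c) x)), hF, cn_zero, Bool.xor_assoc, Bool.xor_self,
      Bool.xor_false]
  let s : Bool → Perm X := fun b =>
    { toFun := fun x => tl (f (cn b x))
      invFun := fun x => tl (f⁻¹ (cn (xor b c) x))
      left_inv := fun x => by
        show tl (f⁻¹ (cn (xor b c) (tl (f (cn b x))))) = x
        have h2 : f⁻¹ (f (cn b x)) = cn b x := f.symm_apply_apply _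
        rw [e, h2, tl_cn]
      right_inv := fun x => by
        show tl (f (cn b (tl (f⁻¹ (cn (xor b c) x))))) = x
        have h2 : f (f⁻¹ (cn (xor b c) x)) = cn (xor b c) x := f.apply_symm_apply _
        rw [e', h2, tl_cn] }
  have hs : ∀ b x, f (cn b x) = cn (xor b c) (s b x) := fun b x => (e b x).symm
  have hs' : ∀ b x, f⁻¹ (cn (xor b c) x) = cn b ((s b)⁻¹ x) := fun b x => (e' b x).symm
  refine ⟨c, s, fun b => ⟨?_, ?_, ?_, ?_⟩, hs⟩
  · intro x m
    obtain ⟨k, hk⟩ := hc (cn b x) (m + 1)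
    refine ⟨k, fun y hy => ?_⟩
    have h1 := hk (cn b y) ((Agr_cn.mpr ⟨rfl, hy⟩ : Agr (k + 1) _ _).mono (by omega))
    rw [hs, hs, Agr_cn] at h1
    exact h1.2
  · intro x m
    obtain ⟨k, hk⟩ := hci (cn (xor b c) x) (m + 1)
    refine ⟨k, fun y hy => ?_⟩
    have h1 := hk (cn (xor b c) y) ((Agr_cn.mpr ⟨rfl, hy⟩ : Agr (k + 1) _ _).mono (by omega))
    rw [hs', hs', Agr_cn] at h1
    exact h1.2
  · intro g hg
    obtain ⟨h, hh, hh1⟩ := selfrep v hg b
    refine sec_mem v (hn h hh) (xor b c) (xor b c) fun x => ?_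
    rw [Perm.mul_apply, Perm.mul_apply, hs', hh1, hs, Perm.mul_apply, Perm.mul_apply]
  · intro m g hg
    obtain ⟨k, hk, hk1⟩ := selfrep v hg (xor b c)
    obtain ⟨h, hh, hhd⟩ := hd (m + 1) k hk
    obtain ⟨w, rfl⟩ := exists_ev v hh
    have h1 : ∀ x, Agr (m + 1) (cn (xor (xor b (fl w)) c)
        (s (xor b (fl w)) (ev v (sec v b w) ((s b)⁻¹ x)))) (cn (xor b c) (g x)) := by
      intro x
      have h2 := hhd (cn (xor b c) x)
      rw [Perm.mul_apply, Perm.mul_apply, hs', ev_cn, hs, hk1] at h2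
      exact h2
    have h3 : fl w = false := by
      have h4 := (Agr_cn.1 (h1 fun _ => false)).1
      revert h4
      cases fl w <;> cases b <;> cases c <;> simp
    refine ⟨ev v (sec v b w), ev_mem v _, fun x => ?_⟩
    have h5 := (Agr_cn.1 (h1 x)).2
    rw [h3, Bool.xor_false] at h5
    rw [Perm.mul_apply, Perm.mul_apply]
    exact h5

end Pool.Agent.Helper45.KN
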