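import Pool.Agent.Helper70.KN.Goals

/-!
# Project KN (MP_20ee5e_ag), packet Y2
-/

open MeasureTheory Set

namespace Pool.Agent.Helper45.KN.Y2

open Pool.Agent.Helper70.KN

theorem t (hCL : S_CL) (hMF : S_MF) (hSC : S_SC) : S_Y2 := by
  classical
  intro N V hV J h hh
  obtain ⟨-, hcf, hp⟩ := hMF N V hV J
  obtain ⟨hm, -⟩ := hp h
  have hup := (hCL N V).2.2
  set D : Fin N → ℝ := fun k => if k ∈ J then h else 1 with hD
  have hDpos : ∀ i, 0 < D i := by
    intro i
    simp only [hD]
    split_ifs
    · exact hh
    · exact one_pos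
  have hprod : ∏ i, D i = h ^ J.card := by
    simp only [hD]
    rw [Finset.prod_ite]
    simp
  have key := hSC N (part V h J) D hm hDpos
  have hsub : {x : Fin N → ℝ | (fun i => D i * x i) ∈ part V h J} ⊆ cyl V J := by
    intro x hx
    obtain ⟨h0, hJ, hn⟩ := hx
    have hx0 : 0 ≤ x := by
      intro i
      have h1 := h0 i
      simp only [Pi.zero_apply] at h1 ⊢
      by_contra hneg
      push Not at hneg
      have := mul_neg_of_pos_of_neg (hDpos i) hneg
      linarith
    refine ⟨hx0, ?_, ?_⟩
    · intro j hj
      have h1 := hJ j hj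
      simp only [hD, hj, if_true] at h1
      by_contra hge
      push Not at hge
      nlinarith
    · intro hmem
      apply hn
      refine hup ?_ hmem
      intro i
      simp only [zr]
      split_ifs with hi
      · exact h0 i
      · simp [hD, hi]
  unfold Y W
  rw [key, ENNReal.toReal_mul, hprod, ENNReal.toReal_ofReal (pow_nonneg hh.le _)]
  exact mul_le_mul_of_nonneg_left (ENNReal.toReal_mono hcf (measure_mono hsub)) (pow_nonneg hh.le _)

end Pool.Agent.Helper45.KN.Y2
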